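import Pool.Agent.PST.StmtsDR

/-! Row QWV of squad PST: the fixed points of the centraliser of `V / W` (helper40). -/

open scoped BigOperators

noncomputable section

namespace Pool.Agent.PST.H40

open Pool.Agent.PSS
open Pool.Agent.PST

/-- the operators which act trivially on `V / W` -/
def KW {V E : Type} [CommGroup V] [Group E] (φ : E →* MulAut V) (W : Subgroup V) : Subgroup E where
  carrier := {e | ∀ u, φ e u * u⁻¹ ∈ W}
  one_mem' := fun u => by
    rw [map_one, MulAut.one_apply, mul_inv_cancel]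
    exact W.one_mem
  mul_mem' := by
    intro e f he hf u
    have h : φ (e * f) u * u⁻¹ = φ e (φ f u) * (φ f u)⁻¹ * (φ f u * u⁻¹) := by
      rw [map_mul, MulAut.mul_apply, mul_assoc, inv_mul_cancel_left]
    rw [h]
    exact W.mul_mem (he _) (hf u)
  inv_mem' := by
    intro e he u
    have h := W.inv_mem (he (φ e⁻¹ u))
    rw [← MulAut.mul_apply, ← map_mul, mul_inv_cancel, map_one, MulAut.one_apply, mul_inv_rev,
      inv_inv] at h
    exact h

theorem qwv : QwvStmt := by
  intro ℓ _ V E _ _ _ _ φ W hV hE hW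
  classical
  constructor
  · intro f v hv e he
    have h1 : ∀ u, φ (f⁻¹ * e * f) u * u⁻¹ ∈ W := by
      intro u
      have h2 := hW f⁻¹ _ (he (φ f u))
      have h5 : φ f⁻¹ (φ e (φ f u) * (φ f u)⁻¹) = φ (f⁻¹ * e * f) u * u⁻¹ := by
        have h6 : φ f⁻¹ (φ f u) = u := by
          rw [← MulAut.mul_apply, ← map_mul, inv_mul_cancel, map_one, MulAut.one_apply]
        have h7 : φ (f⁻¹ * e * f) u = φ f⁻¹ (φ e (φ f u)) := by
          rw [map_mul φ, map_mul φ, MulAut.mul_apply, MulAut.mul_apply]
        rw [map_mul (φ f⁻¹), map_inv (φ f⁻¹), h6, h7]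
      rw [← h5]
      exact h2
    have h3 := hv _ h1
    rw [map_mul, map_mul, map_inv, MulAut.mul_apply, MulAut.mul_apply] at h3
    have h4 := congrArg (φ f) h3
    rw [← MulAut.mul_apply, mul_inv_cancel, MulAut.one_apply] at h4
    exact h4
  · intro v
    obtain ⟨n, hn⟩ := IsPGroup.iff_card.1 hV
    have hk : (Nat.card V).Coprime (Nat.card (KW φ W)) := by
      rw [hn]
      apply Nat.Coprime.pow_left
      rw [Nat.Prime.coprime_iff_not_dvd Fact.out]
      exact fun h => hE (h.trans (Subgroup.card_subgroup_dvd_card _))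
    obtain ⟨v', hv'⟩ := (powCoprime hk).surjective v
    change v' ^ Nat.card (KW φ W) = v at hv'
    refine ⟨∏ e : KW φ W, φ (e : E) v', ?_, (∏ e : KW φ W, (φ (e : E) v' * v'⁻¹))⁻¹, ?_, ?_⟩
    · intro f hf
      rw [map_prod]
      refine Fintype.prod_equiv (Equiv.mulLeft (⟨f, hf⟩ : KW φ W)) _ _ fun e => ?_
      rw [← MulAut.mul_apply, ← map_mul]
      rfl
    · exact W.inv_mem (W.prod_mem fun e _ => e.2 v')
    · rw [Finset.prod_mul_distrib, Finset.prod_const, Finset.card_univ, ← Nat.card_eq_fintype_card,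
        inv_pow, hv', mul_inv_rev, inv_inv, mul_comm v, mul_inv_cancel_left]

end Pool.Agent.PST.H40
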