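import Pool.Agent.PST.StmtsK1

/-! Row DZC of squad PST: the values of a derivation at central elements (helper40). -/

open scoped BigOperators

noncomputable section

namespace Pool.Agent.PST.H40

open Pool.Agent.PSS
open Pool.Agent.PST

theorem dzc (thl : S2.ThlStmt) (zrt : S0.ZrtStmt) : DzcStmt := by
  intro F V A K ι _ _ _ _ _ _ _ α lam x y δ D e a hRF hδ hD hDv ha hδv z hz
  set ζ : A := rt x y 1 with hζ
  have hζe : ζ = ∑ k, x k * 1 * y k := rfl
  have hζ1 : ζ = ∑ k, x k * y k := by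
    rw [hζe]
    exact Finset.sum_congr rfl fun k _ => by rw [mul_one]
  have hζc : ∀ c, c * ζ = ζ * c := by
    intro c
    rw [hζe]
    refine zrt F V A K α lam x y hRF 1 ?_ c
    intro u _
    change α u * (1 * α u⁻¹) = 1
    rw [one_mul, ← map_mul, mul_inv_cancel, map_one]
  have hac : ∀ i v, α v * a i = a i * α v := fun i v => mem_cw.1 (ha i) v (Subgroup.mem_top v)
  -- the map `N`
  let N : A →ₗ[F] A := LinearMap.mulLeft F ζ ∘ₗ δ - ∑ i, LinearMap.mulRight F (a i) ∘ₗ D i
  have hN : ∀ b, N b = ζ * δ b - ∑ i, D i b * a i := by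
    intro b
    change (LinearMap.mulLeft F ζ ∘ₗ δ - ∑ i, LinearMap.mulRight F (a i) ∘ₗ D i) b = _
    rw [LinearMap.sub_apply, LinearMap.sum_apply]
    rfl
  have hNr : S2.RLq 0 α N := by
    intro b v
    rw [S2.cg_zero, hN, hN, hδ, hδv, sub_mul, mul_add, Finset.sum_mul]
    have h1 : ∀ i, D i (b * α v) * a i =
        D i b * a i * α v + ζ * (b * (e i v • (a i * α v))) := by
      intro i
      rw [hD, hDv, add_mul, mul_assoc (D i b), hac, ← mul_assoc]
      congr 1
      rw [mul_smul_comm, smul_mul_assoc, mul_smul_comm, mul_smul_comm]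
      congr 1
      rw [← hac, ← mul_assoc b, hζc, mul_assoc, mul_assoc]
    rw [Finset.sum_congr rfl fun i _ => h1 i, Finset.sum_add_distrib, ← Finset.mul_sum,
      ← Finset.mul_sum, mul_assoc ζ (δ b)]
    abel
  have h1 := (S2.cg_zero _ _).1 (thl F V A K 0 α lam x y N hRF hNr z)
  have h2 : ∀ k, N (z * x k) * y k =
      z * (N (x k) * y k) + (ζ * δ z * (x k * y k) - ∑ i, D i z * (x k * a i * y k)) := by
    intro k
    have h3 : N (z * x k) = z * N (x k) + (ζ * δ z * x k - ∑ i, D i z * (x k * a i)) := by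
      rw [hN, hN, hδ, mul_add, mul_sub, Finset.mul_sum]
      have h4 : ∀ i, D i (z * x k) * a i = D i z * (x k * a i) + z * (D i (x k) * a i) := by
        intro i
        rw [hD, add_mul, mul_assoc, mul_assoc]
      rw [Finset.sum_congr rfl fun i _ => h4 i, Finset.sum_add_distrib, ← mul_assoc ζ (δ z),
        ← mul_assoc ζ z, ← hz ζ, mul_assoc z ζ]
      abel
    rw [h3, add_mul, sub_mul, Finset.sum_mul, mul_assoc z, mul_assoc (ζ * δ z)]
    congr 2
    exact Finset.sum_congr rfl fun i _ => by rw [mul_assoc (D i z)]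
  rw [Finset.sum_congr rfl fun k _ => h2 k, Finset.sum_add_distrib, ← Finset.mul_sum,
    Finset.sum_sub_distrib, ← Finset.mul_sum, ← hζ1, hz, add_eq_left, sub_eq_zero] at h1
  rw [mul_assoc, ← hζc (δ z), ← mul_assoc, h1, Finset.sum_comm]
  refine Finset.sum_congr rfl fun i _ => ?_
  rw [← Finset.mul_sum]
  rfl

end Pool.Agent.PST.H40
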