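import Pool.Agent.PST.StmtsGE

/-! Row FZD of squad PST: the first order datum of a deformation, the forms vanish (helper40). -/

open scoped BigOperators

noncomputable section

namespace Pool.Agent.PST.H40

open Pool.Agent.PSS
open Pool.Agent.PST
open Pool.Agent.PFD.D2b (FrR)
open Finset

namespace FZD

section

variable {k A W : Type} [CommRing k] [Ring A] [Algebra k A] [Group W] {om : W →* A}
  (D : Dm k om)

theorem sq_mul (x y : D.R) : D.sq (x * y) = D.mul (D.sq x) (D.sq y) := by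
  have h := D.of_mul (D.sq x) (D.sq y)
  rw [D.of_sq, D.of_sq] at h
  rw [← h, D.sq_of]

theorem sq_sub (x y : D.R) : D.sq (x - y) = D.sq x - D.sq y := by
  have h : D.of (D.sq x - D.sq y) = x - y := by
    rw [sub_eq_add_neg, D.of_add, D.of_neg, D.of_sq, D.of_sq, ← sub_eq_add_neg]
  rw [← h, D.sq_of]

theorem sq_smul (c : PowerSeries k) (x : D.R) : D.sq (c • x) = Dm.smulq c (D.sq x) := by
  have h := D.of_smul c (D.sq x)
  rw [D.of_sq] at h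
  rw [← h, D.sq_of]

theorem mul_o (f g : ℕ → A) :
    D.mul f g 1 = f 0 * g 1 + f 1 * g 0 + D.m 1 (f 0) (g 0) := by
  rw [Dm.mul, Finset.Nat.sum_antidiagonal_eq_sum_range_succ
    (fun a b => ∑ q ∈ antidiagonal b, D.m a (f q.1) (g q.2)), Finset.sum_range_succ,
    Finset.sum_range_one]
  simp only [Nat.sub_zero, Nat.sub_self]
  rw [Finset.Nat.sum_antidiagonal_eq_sum_range_succ (fun a b => D.m 0 (f a) (g b)),
    Finset.sum_range_succ, Finset.sum_range_one]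
  simp [D.m0]

theorem smulq_X2 (g : ℕ → A) : Dm.smulq ((PowerSeries.X : PowerSeries k) ^ 2) g 1 = 0 := by
  rw [Dm.smulq]
  refine Finset.sum_eq_zero fun p hp => ?_
  rw [Finset.HasAntidiagonal.mem_antidiagonal] at hp
  rw [PowerSeries.coeff_X_pow, if_neg (by omega), zero_smul]

end

end FZD

open FZD in
theorem fzd : FzdStmt := by
  intro ℓ _ F V A₀ Ω _ _ _ _ _ _ _ W α₀ b₀ c₀ D₀ D lf G hfr hfo ω u v hu hv
  have hinv : ∀ (g : V), ((g, g) : V × V) • ω = ω → ∀ s : A₀,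
      c₀ ω (α₀ g * (s * α₀ g⁻¹)) = c₀ ω s := by
    intro g hg s
    have h := hfr.2.1 (g, g) ω s
    rw [hg] at h
    exact h
  obtain ⟨z, hz⟩ := hfo.cc u v
  have h1 : D₀.sq (lf u * lf v - lf v * lf u) 1 = 0 := by
    rw [hz, sq_smul, smulq_X2]
  have hq : ∀ g, D₀.sq (lf g) 0 = α₀ g := hfo.q0
  rw [sq_sub, Pi.sub_apply, sq_mul, sq_mul, mul_o, mul_o, hq, hq] at h1
  set su := D₀.sq (lf u) 1 with hsu
  set sv := D₀.sq (lf v) 1 with hsv
  have hm : D₀.m 1 (α₀ u) (α₀ v) - D₀.m 1 (α₀ v) (α₀ u) =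
      α₀ v * su + sv * α₀ u - (α₀ u * sv + su * α₀ v) := by
    have h2 := sub_eq_zero.mp h1
    have h3 : D₀.m 1 (α₀ u) (α₀ v) = α₀ v * su + sv * α₀ u + D₀.m 1 (α₀ v) (α₀ u) -
        (α₀ u * sv + su * α₀ v) := by
      rw [← h2]
      abel
    rw [h3]
    abel
  have cu : α₀ u * α₀ u⁻¹ = 1 := by rw [← map_mul, mul_inv_cancel, map_one]
  have cv : α₀ v * α₀ v⁻¹ = 1 := by rw [← map_mul, mul_inv_cancel, map_one]
  have e1 : α₀ (u * v)⁻¹ = α₀ u⁻¹ * α₀ v⁻¹ := by rw [← map_mul, mul_inv]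
  have e2 : α₀ (u * v)⁻¹ = α₀ v⁻¹ * α₀ u⁻¹ := by rw [← map_mul, mul_inv, mul_comm]
  have key : (D₀.m 1 (α₀ u) (α₀ v) - D₀.m 1 (α₀ v) (α₀ u)) * α₀ (u * v)⁻¹ =
      (α₀ v * ((su * α₀ u⁻¹) * α₀ v⁻¹) - su * α₀ u⁻¹) -
        (α₀ u * ((sv * α₀ v⁻¹) * α₀ u⁻¹) - sv * α₀ v⁻¹) := by
    rw [hm, sub_mul, add_mul, add_mul]
    have a1 : α₀ v * su * α₀ (u * v)⁻¹ = α₀ v * ((su * α₀ u⁻¹) * α₀ v⁻¹) := by
      rw [e1]; noncomm_ring
    have a2 : sv * α₀ u * α₀ (u * v)⁻¹ = sv * α₀ v⁻¹ := by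
      rw [e1, mul_assoc, ← mul_assoc (α₀ u), cu, one_mul]
    have a3 : α₀ u * sv * α₀ (u * v)⁻¹ = α₀ u * ((sv * α₀ v⁻¹) * α₀ u⁻¹) := by
      rw [e2]; noncomm_ring
    have a4 : su * α₀ v * α₀ (u * v)⁻¹ = su * α₀ u⁻¹ := by
      rw [e2, mul_assoc, ← mul_assoc (α₀ v), cv, one_mul]
    rw [a1, a2, a3, a4]
    abel
  rw [key, map_sub, map_sub, map_sub, hinv v hv, hinv u hu, sub_self, sub_self, sub_self]

end Pool.Agent.PST.H40
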