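import Pool.Agent.PST.StmtsET2
import Pool.Agent.PSS.StmtsS0

/-! Row RTU of block ET of squad PST: the relative trace of an element of `F V` of nonzero
augmentation is a unit (helper40). -/

open scoped BigOperators

noncomputable section

namespace Pool.Agent.PST.H40

open Pool.Agent.PSS (RF FxR BKR cw bw Per Uni)
open Pool.Agent.PFC (Fx BK cj bi tw PS Frm PMid Cz)
open Finset

namespace RTU

/-- an element of `F V` with nonzero augmentation is a unit -/
theorem unit_aug (ℓ : ℕ) [Fact ℓ.Prime] (F V B : Type) [Field F] [CharP F ℓ] [CommGroup V]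
    [Fintype V] [Ring B] [Algebra F B] (αB : V →* B) (hV : IsPGroup ℓ V) (s : V → F)
    (hs : ∑ v, s v ≠ 0) : IsUnit (∑ v, s v • αB v) := by
  classical
  have : CharP (MonoidAlgebra F V) ℓ :=
    charP_of_injective_algebraMap (algebraMap F (MonoidAlgebra F V)).injective ℓ
  obtain ⟨m, hm⟩ := IsPGroup.iff_card.mp hV
  have hv : ∀ v : V, v ^ ℓ ^ m = 1 := fun v => by rw [← hm]; exact pow_card_eq_one'
  set w : MonoidAlgebra F V := ∑ v, MonoidAlgebra.single v (s v) with hw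
  have h1 : w ^ ℓ ^ m = algebraMap F (MonoidAlgebra F V) ((∑ v, s v) ^ ℓ ^ m) := by
    rw [hw, sum_pow_char_pow, sum_pow_char_pow, map_sum]
    refine sum_congr rfl fun v _ => ?_
    rw [MonoidAlgebra.single_pow, hv]
    rfl
  have h2 : IsUnit w := by
    have hne : ℓ ^ m ≠ 0 := pow_ne_zero _ (Fact.out : ℓ.Prime).ne_zero
    rw [← isUnit_pow_iff hne, h1]
    exact (IsUnit.mk0 _ (pow_ne_zero _ hs)).map _
  have h3 := h2.map (MonoidAlgebra.lift F B V αB)
  have h4 : MonoidAlgebra.lift F B V αB w = ∑ v, s v • αB v := by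
    rw [hw, map_sum]
    refine sum_congr rfl fun v _ => ?_
    rw [MonoidAlgebra.lift_single]
  rwa [h4] at h3

theorem fx_iff {F V A : Type} [Field F] [CommGroup V] [Ring A] [Algebra F A] (α : V →* A) (x : A) :
    x ∈ FxR (cw F α) ⊤ ↔ ∀ v, α v * x = x * α v := by
  have hi : ∀ v : V, α v⁻¹ * α v = 1 := fun v => by rw [← map_mul, inv_mul_cancel, map_one]
  have hi' : ∀ v : V, α v * α v⁻¹ = 1 := fun v => by rw [← map_mul, mul_inv_cancel, map_one]
  constructor
  · intro h v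
    have h1 : α v * (x * α v⁻¹) = x := h v trivial
    calc α v * x = α v * (x * α v⁻¹) * α v := by
          rw [← mul_assoc, mul_assoc _ (α v⁻¹), hi, mul_one]
      _ = x * α v := by rw [h1]
  · intro h v _
    change α v * (x * α v⁻¹) = x
    rw [← mul_assoc, h, mul_assoc, hi', mul_one]

end RTU

open RTU in
theorem rtu (bqx : Pool.Agent.PSS.S0.BqxStmt) (bpu : Pool.Agent.PSS.S0.BpuStmt)
    (mck : Pool.Agent.PSS.S0.MckStmt) (zrt : Pool.Agent.PSS.S0.ZrtStmt) : ET.RtuStmt := by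
  classical
  intro ℓ _ F V E H K _ _ _ _ _ _ _ _ _ φ α lam x y hV hnt hE hP hRF s hs
  have h0 : (ℓ : F) = 0 := CharP.cast_eq_zero F ℓ
  obtain ⟨B, iB, aB, αB, β, hβ⟩ := bqx F V H α ⊤
  have hper : Per F φ α := hP.ps
  have huni : Uni φ α := hP.uni
  obtain ⟨-, -, lamB, KB, iKB, xB, yB, hRB, hlam⟩ := bpu ℓ F V E H B K φ α ⊤ αB β lam x y φ.ker
    h0 hV hper huni hRF hβ (by
      intro e
      rw [MonoidHom.mem_ker]
      constructor
      · intro h q _
        rw [h]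
        rfl
      · intro h
        ext q
        exact h q trivial)
  -- `α v` and the combinations are fixed
  have hαf : ∀ v, α v ∈ FxR (cw F α) ⊤ := fun v => (fx_iff α _).mpr fun u => by
    rw [← map_mul, mul_comm, map_mul]
  have hcf : ∀ c : V → F, ∑ u, c u • α u ∈ FxR (cw F α) ⊤ := fun c =>
    Submodule.sum_mem _ fun u _ => Submodule.smul_mem _ _ (hαf u)
  have hβs : ∀ (t : Finset V) (g : V → H), (∀ u, g u ∈ FxR (cw F α) ⊤) →
      β (∑ u ∈ t, g u) = ∑ u ∈ t, β (g u) := by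
    intro t g hg
    have hβ0 : β 0 = 0 := by
      have := hβ.smul 0 0 (Submodule.zero_mem _)
      rwa [zero_smul, zero_smul] at this
    induction t using Finset.induction_on with
    | empty => simpa using hβ0
    | insert u t hu ih =>
      rw [sum_insert hu, sum_insert hu, hβ.add _ (hg u) _ (Submodule.sum_mem _ fun v _ => hg v), ih]
  have hβc : ∀ c : V → F, β (∑ u, c u • α u) = ∑ u, c u • αB u := by
    intro c
    rw [hβs _ _ fun u => Submodule.smul_mem _ _ (hαf u)]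
    refine sum_congr rfl fun u _ => ?_
    rw [hβ.smul _ _ (hαf u), hβ.om]
  -- `B` is spanned by the `αB u`
  have hspan : ∀ b : B, ∃ c : V → F, b = ∑ u, c u • αB u := by
    intro b
    obtain ⟨a, ha, rfl⟩ := hβ.surj b
    obtain ⟨c, hc⟩ := hP.spn ⊤ (by
      intro h
      obtain ⟨v, hv⟩ := exists_ne (1 : V)
      exact hv (Subgroup.mem_bot.mp (h (Subgroup.mem_top v)))) a ha
    refine ⟨c, ?_⟩
    rw [← hβc c]
    have hmem : a - ∑ u, c u • α u ∈ FxR (cw F α) ⊤ := Submodule.sub_mem _ ha (hcf c)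
    have h1 : β (a - ∑ u, c u • α u) = 0 := (hβ.ker _ hmem).mpr hc
    have h2 := hβ.add _ hmem _ (hcf c)
    rw [sub_add_cancel, h1, zero_add] at h2
    exact h2
  have hcomm : ∀ b b' : B, b * b' = b' * b := by
    intro b b'
    obtain ⟨c, rfl⟩ := hspan b
    obtain ⟨d, rfl⟩ := hspan b'
    rw [sum_mul_sum, sum_mul_sum, sum_comm]
    refine sum_congr rfl fun u _ => sum_congr rfl fun v _ => ?_
    rw [smul_mul_smul_comm, smul_mul_smul_comm, mul_comm (c v), ← map_mul, ← map_mul, mul_comm v]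
  -- `∑ xB yB` is a unit
  have hG : ∀ b : B, ∑ v, lamB (αB v⁻¹ * b) • αB v = b * ∑ v, lamB (αB v⁻¹) • αB v := by
    have h1 : ∀ u, ∑ v, lamB (αB v⁻¹ * αB u) • αB v = αB u * ∑ v, lamB (αB v⁻¹) • αB v := by
      intro u
      rw [mul_sum, ← Equiv.sum_comp (Equiv.mulLeft u)]
      refine sum_congr rfl fun v _ => ?_
      rw [Equiv.coe_mulLeft, ← map_mul, mul_smul_comm, ← map_mul]
      have : (u * v)⁻¹ * u = v⁻¹ := by
        rw [mul_inv, mul_comm u⁻¹, mul_assoc, inv_mul_cancel, mul_one]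
      rw [this]
    intro b
    obtain ⟨c, rfl⟩ := hspan b
    have h2 : ∀ v, lamB (αB v⁻¹ * ∑ u, c u • αB u) • αB v =
        ∑ u, c u • (lamB (αB v⁻¹ * αB u) • αB v) := by
      intro v
      rw [mul_sum, map_sum, sum_smul]
      refine sum_congr rfl fun u _ => ?_
      rw [mul_smul_comm, map_smul, smul_eq_mul, mul_smul]
    simp_rw [h2]
    rw [sum_comm, sum_mul]
    refine sum_congr rfl fun u _ => ?_
    rw [← smul_sum, h1, smul_mul_assoc]
  have hζ : IsUnit (∑ k, xB k * yB k) := by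
    have h1 : (∑ k, xB k * yB k) * ∑ v, lamB (αB v⁻¹) • αB v = 1 := by
      rw [← hRB.e1 1, sum_mul]
      refine sum_congr rfl fun k _ => ?_
      rw [mul_assoc, ← hG (yB k), mul_sum]
      refine sum_congr rfl fun v _ => ?_
      rw [mul_one, mul_smul_comm]
    exact ⟨⟨_, _, h1, by rw [hcomm, h1]⟩, rfl⟩
  -- the Mackey formula
  choose n n' hn1 hn2 hn3 using huni
  have : Fintype φ.range := Fintype.ofFinite _
  choose sec hsec using fun g : φ.range => g.2
  have hsecinj : Function.Injective sec := by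
    intro g g' h
    apply Subtype.ext
    rw [← hsec g, ← hsec g', h]
  set T : Finset E := univ.image sec with hT
  have hTcard : T.card = Nat.card φ.range := by
    rw [hT, card_image_of_injective _ hsecinj, card_univ, Nat.card_eq_fintype_card]
  have hTu : ∀ e : E, ∃! t, t ∈ T ∧ ∀ q ∈ (⊤ : Subgroup V), (φ t)⁻¹ q = (φ e)⁻¹ q := by
    intro e
    refine ⟨sec ⟨φ e, e, rfl⟩, ⟨mem_image_of_mem _ (mem_univ _), ?_⟩, ?_⟩
    · intro q _
      rw [hsec]
    · rintro t ⟨ht, htq⟩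
      obtain ⟨g, -, rfl⟩ := mem_image.mp ht
      have : φ (sec g) = φ e := by
        have h1 : (φ (sec g))⁻¹ = (φ e)⁻¹ := by
          ext q
          exact htq q trivial
        exact inv_injective h1
      have h2 : g = ⟨φ e, e, rfl⟩ := Subtype.ext (by rw [← hsec g, this])
      rw [← h2]
  set a : H := ∑ v, s v • α v with ha
  have hamem : a ∈ FxR (cw F α) ⊤ := hcf s
  have hm := mck ℓ F V E H B K KB φ α ⊤ αB β lam x y lamB xB yB n n' T h0 hV hper hRF hβ hRB hlam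
    (fun e => ⟨hn1 e, hn2 e, hn3 e⟩) hTu a hamem
  -- the value
  set w : B := ∑ v, (∑ t ∈ T, s ((φ t)⁻¹ v)) • αB v with hw
  have hconj : ∀ t, n t * a * n' t = ∑ v, s ((φ t)⁻¹ v) • α v := by
    intro t
    rw [ha, mul_sum, sum_mul, ← Equiv.sum_comp (φ t).toEquiv (fun v => s ((φ t)⁻¹ v) • α v)]
    refine sum_congr rfl fun v _ => ?_
    have e1 : (φ t)⁻¹ ((φ t) v) = v := MulAut.inv_apply_self V (φ t) v
    change _ = s ((φ t)⁻¹ ((φ t) v)) • α ((φ t) v)
    rw [e1, mul_smul_comm, smul_mul_assoc, hn3, mul_assoc, hn1, mul_one]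
  have hval : β (∑ k, x k * a * y k) = (∑ k, xB k * yB k) * w := by
    rw [hm]
    have h1 : ∀ t, ∑ k, xB k * β (n t * a * n' t) * yB k =
        (∑ k, xB k * yB k) * ∑ v, s ((φ t)⁻¹ v) • αB v := by
      intro t
      rw [hconj, hβc, sum_mul]
      refine sum_congr rfl fun k _ => ?_
      rw [mul_assoc, hcomm _ (yB k), ← mul_assoc]
    rw [sum_congr rfl fun t _ => h1 t, ← mul_sum, sum_comm, hw]
    simp_rw [sum_smul]
  have hwu : IsUnit w := by
    refine unit_aug ℓ F V B αB hV _ ?_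
    rw [sum_comm]
    have h1 : ∀ t, ∑ v, s ((φ t)⁻¹ v) = ∑ v, s v := fun t =>
      Equiv.sum_comp ((φ t)⁻¹ : MulAut V).toEquiv s
    rw [sum_congr rfl fun t _ => h1 t, sum_const, nsmul_eq_mul]
    refine mul_ne_zero ?_ hs
    intro h
    rw [CharP.cast_eq_zero_iff F ℓ, hTcard] at h
    exact hE (h.trans (Subgroup.card_range_dvd φ))
  have hβu : IsUnit (β (∑ k, x k * a * y k)) := hval ▸ hζ.mul hwu
  -- back to `H`
  set z : H := ∑ k, x k * a * y k with hz
  have hzc : ∀ c, c * z = z * c := zrt F V H K α lam x y hRF a hamem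
  have hzf : z ∈ FxR (cw F α) ⊤ := (fx_iff α z).mpr fun v => hzc (α v)
  have := hP.loc
  have hCz : ∀ b : H, b ∈ FxR (cw F α) ⊤ → b ∈ Cz F α ⊤ := by
    intro b hb
    rw [Cz, Subalgebra.mem_centralizer_iff]
    rintro _ ⟨v, -, rfl⟩
    exact (fx_iff α b).mp hb v
  obtain ⟨z', hz'f, hz'⟩ := hβ.surj (↑(hβu.unit⁻¹) : B)
  have hmul : β (z * z') = 1 := by
    rw [hβ.mul _ hzf _ hz'f, hz']
    exact hβu.mul_val_inv
  have h1f : (1 : H) ∈ FxR (cw F α) ⊤ := (fx_iff α _).mpr fun v => by rw [mul_one, one_mul]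
  have hzz' : z * z' ∈ FxR (cw F α) ⊤ := (fx_iff α _).mpr fun v => by
    rw [← mul_assoc, (fx_iff α z).mp hzf, mul_assoc, (fx_iff α z').mp hz'f, mul_assoc]
  have hsub : 1 - z * z' ∈ FxR (cw F α) ⊤ := Submodule.sub_mem _ h1f hzz'
  have hβ1 : β (1 - z * z') = 0 := by
    have h2 := hβ.add _ hsub _ hzz'
    rw [sub_add_cancel, hβ.one, hmul] at h2
    have := congrArg (fun b => b - 1) h2
    simpa using this.symm
  have hB : (1 : B) ≠ 0 := by
    intro h
    apply hP.one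
    exact (hβ.ker 1 h1f).mp (by rw [hβ.one, h])
  have hloc := IsLocalRing.isUnit_or_isUnit_of_add_one
    (a := (⟨z * z', hCz _ hzz'⟩ : Cz F α ⊤)) (b := ⟨1 - z * z', hCz _ hsub⟩)
    (Subtype.ext (by change z * z' + (1 - z * z') = 1; abel))
  rcases hloc with h | h
  · have h2 : IsUnit (z * z') := h.map (Cz F α ⊤).val
    obtain ⟨u, hu⟩ := h2
    refine ⟨⟨z, z' * ↑u⁻¹, ?_, ?_⟩, rfl⟩
    · rw [← mul_assoc, ← hu, Units.mul_inv]
    · have h3 : z * (z' * ↑u⁻¹) = 1 := by rw [← mul_assoc, ← hu, Units.mul_inv]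
      rw [hzc, h3]
  · exfalso
    obtain ⟨u, hu⟩ := h
    have hu1 : (u : Cz F α ⊤).1 * (↑u⁻¹ : Cz F α ⊤).1 = 1 := by
      have := congrArg Subtype.val (Units.mul_inv u)
      exact this
    have hu2 : (u : Cz F α ⊤).1 = 1 - z * z' := by rw [hu]
    have hinvf : (↑u⁻¹ : Cz F α ⊤).1 ∈ FxR (cw F α) ⊤ := by
      rw [fx_iff]
      intro v
      have h3 : ∀ g ∈ α '' ((⊤ : Subgroup V) : Set V), g * (↑u⁻¹ : Cz F α ⊤).1 =
          (↑u⁻¹ : Cz F α ⊤).1 * g :=
        (Subalgebra.mem_centralizer_iff F).mp (↑u⁻¹ : Cz F α ⊤).2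
      exact h3 _ ⟨v, trivial, rfl⟩
    have h4 : β ((1 - z * z') * (↑u⁻¹ : Cz F α ⊤).1) = 0 := by
      rw [hβ.mul _ hsub _ hinvf, hβ1, zero_mul]
    rw [← hu2, hu1, hβ.one] at h4
    exact hB h4

end Pool.Agent.PST.H40
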